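import Mathlib

namespace Pool.Agent.Results.MP_8d662a_an.NotStar

open Filter Topology Finset
open scoped ENNReal NNReal

/-- the norm of the combinatorial space -/
noncomputable def nrm (𝓕 : Set (Finset ℕ)) (x : ℕ → ℝ) : ℝ≥0∞ := ⨆ F ∈ 𝓕, ∑ k ∈ F, ‖x k‖ₑ

/-- the combinatorial space -/
def XF (𝓕 : Set (Finset ℕ)) : Set (ℕ → ℝ) :=
  {x | Tendsto (fun n => nrm 𝓕 ((Set.Ici n).indicator x)) atTop (𝓝 0)}

/-- Schur property -/
def Schur (𝓕 : Set (Finset ℕ)) : Prop :=
  ∀ (u : ℕ → ℕ → ℝ) (x : ℕ → ℝ), (∀ n, u n ∈ XF 𝓕) → x ∈ XF 𝓕 →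
    (∀ φ : (ℕ → ℝ) →ₗ[ℝ] ℝ, (∃ C : ℝ≥0, ∀ y ∈ XF 𝓕, ‖φ y‖ₑ ≤ C * nrm 𝓕 y) →
      Tendsto (fun n => φ (u n)) atTop (𝓝 (φ x))) →
    Tendsto (fun n => nrm 𝓕 (u n - x)) atTop (𝓝 0)

/-- property (S*) -/
def Star (𝓕 : Set (Finset ℕ)) : Prop :=
  ∀ F : ℕ → Finset ℕ, (∀ n, F n ∈ 𝓕) → Pairwise (fun n m => Disjoint (F n) (F m)) →
    ∃ 𝒜 : Set (Set ℕ), 𝒜.Finite ∧ (∀ A ∈ 𝒜, ∀ s : Finset ℕ, ↑s ⊆ A → s ∈ 𝓕) ∧
      {n | ↑(F n) ⊆ ⋃₀ 𝒜}.Infinite

lemma schur1 (v : ℕ → ℕ → ℝ) (hv : ∀ n, Summable (v n))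
    (h : ∀ ε : ℕ → ℝ, (∀ k, |ε k| ≤ 1) → Tendsto (fun n => ∑' k, ε k * v n k) atTop (𝓝 0)) :
    Tendsto (fun n => ∑' k, |v n k|) atTop (𝓝 0) := by
  classical
  let sg : Bool → ℝ := fun b => if b then 1 else -1
  have hsg : ∀ b, |sg b| ≤ 1 := fun b => by cases b <;> simp [sg]
  have hb : ∀ n k b, ‖sg b * v n k‖ ≤ |v n k| := fun n k b => by
    rw [Real.norm_eq_abs, abs_mul]; exact mul_le_of_le_one_left (abs_nonneg _) (hsg b)
  have hc : ∀ n, Continuous fun e : ℕ → Bool => ∑' k, sg (e k) * v n k := fun n =>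
    continuous_tsum (fun k => ((continuous_of_discreteTopology (f := sg)).comp
      (continuous_apply k)).mul continuous_const) (hv n).abs fun k e => hb n k _
  have hk : ∀ k, Tendsto (fun n => |v n k|) atTop (𝓝 0) := fun k => by
    have := (h (Pi.single k 1) fun j => by by_cases hj : j = k <;> simp [hj]).abs
    simp only [abs_zero] at this
    refine this.congr fun n => ?_
    rw [tsum_eq_single k fun j hj => by simp [hj]]; simp
  refine Metric.tendsto_nhds.2 fun δ hδ => ?_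
  obtain ⟨m, e0, he0⟩ := nonempty_interior_of_iUnion_of_closed
    (f := fun m : ℕ => ⋂ n ≥ m, {e : ℕ → Bool | |∑' k, sg (e k) * v n k| ≤ δ / 4})
    (fun m => isClosed_biInter fun n _ => isClosed_le (hc n).abs continuous_const) (by
      refine Set.eq_univ_of_forall fun e => ?_
      obtain ⟨m, hm⟩ := eventually_atTop.1 (Metric.tendsto_nhds.1 (h _ fun k => hsg (e k)) (δ / 4)
        (by positivity))
      exact Set.mem_iUnion.2 ⟨m, Set.mem_iInter₂.2 fun n hn => by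
        simpa [Real.dist_eq] using (hm n hn).le⟩)
  rw [mem_interior_iff_mem_nhds, nhds_pi, Filter.mem_pi'] at he0
  obtain ⟨I, t, ht, hI⟩ := he0
  have h1 := tendsto_finsetSum I fun k _ => hk k
  simp only [sum_const_zero] at h1
  filter_upwards [eventually_ge_atTop m, h1.eventually (gt_mem_nhds (by positivity : 0 < δ / 4))]
    with n hn h2
  have h3 := Set.mem_iInter₂.1 (hI (a := fun k => if k ∈ I then e0 k else decide (0 ≤ v n k))
    fun k hk => by simpa [mem_coe.1 hk] using mem_of_mem_nhds (ht k)) n hn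
  simp only [Set.mem_ofPred_eq] at h3
  have hs := Summable.of_norm_bounded (hv n).abs fun k =>
    hb n k (if k ∈ I then e0 k else decide (0 ≤ v n k))
  have h4 : ∑' k, |v n k| - ∑' k, sg (if k ∈ I then e0 k else decide (0 ≤ v n k)) * v n k ≤
      ∑ k ∈ I, 2 * |v n k| := by
    rw [← (hv n).abs.tsum_sub hs, tsum_eq_sum (s := I)]
    · refine sum_le_sum fun k _ => ?_
      linarith [abs_le.1 (hb n k (if k ∈ I then e0 k else decide (0 ≤ v n k)))]
    · intro k hk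
      rcases le_or_gt 0 (v n k) with h | h
      · simp [hk, sg, h, abs_of_nonneg h]
      · simp [hk, sg, not_le.2 h, abs_of_neg h]
  rw [← mul_sum] at h4
  rw [Real.dist_eq, sub_zero, abs_of_nonneg (tsum_nonneg fun _ => abs_nonneg _)]
  linarith [abs_le.1 h3]

noncomputable def e : ℕ × Finset ℕ ≃ ℕ := Denumerable.eqv _

noncomputable def b (k : ℕ) : ℕ := (e.symm k).1

noncomputable def S (k : ℕ) : Finset ℕ :=
  if (e.symm k).2 ⊆ range (2 * b k + 1) ∧ b k + 1 ≤ #(e.symm k).2 then (e.symm k).2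
  else range (2 * b k + 1)

lemma S_prop (k : ℕ) : S k ⊆ range (2 * b k + 1) ∧ b k + 1 ≤ #(S k) := by
  unfold S
  split_ifs with h
  · exact h
  · simp; omega

def Fam : Set (Finset ℕ) :=
  {s | (∃ n, ∀ k ∈ s, b k = n) ∨ ∃ c : ℕ → ℕ, ∀ k ∈ s, c (b k) ∈ S k}

lemma half (w : ℕ → ℝ) (hw : ∀ k, 0 ≤ w k) (t : Finset ℕ) :
    ∃ s ∈ Fam, ∑ k ∈ t, w k ≤ 2 * ∑ k ∈ s, w k := by
  have h : ∀ n, ∃ i ∈ range (2 * n + 1), ∑ k ∈ t with b k = n, w k ≤
      ∑ k ∈ t with b k = n, 2 * if i ∈ S k then w k else 0 := fun n => by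
    refine exists_le_of_sum_le ⟨0, by simp⟩ ?_
    rw [sum_comm, sum_comm (s := range _)]
    refine sum_le_sum fun k hk => ?_
    obtain ⟨h1, h2⟩ := S_prop k
    rw [(mem_filter.1 hk).2] at h1 h2
    rw [← mul_sum, sum_ite_mem, inter_eq_right.2 h1]
    simp only [sum_const, card_range, nsmul_eq_mul]
    have h3 : (n + 1 : ℝ) ≤ #(S k) := by exact_mod_cast h2
    push_cast
    nlinarith [hw k, mul_le_mul_of_nonneg_right h3 (hw k)]
  choose c _ hc using h
  refine ⟨t.filter fun k => c (b k) ∈ S k, Or.inr ⟨c, fun k hk => (mem_filter.1 hk).2⟩, ?_⟩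
  rw [sum_filter, mul_sum, ← sum_fiberwise_of_maps_to (g := b) fun k hk => mem_image_of_mem b hk,
    ← sum_fiberwise_of_maps_to (s := t) (g := b) fun k hk => mem_image_of_mem b hk]
  refine sum_le_sum fun n _ => (hc n).trans (le_of_eq (sum_congr rfl fun k hk => ?_))
  rw [(mem_filter.1 hk).2]

lemma N_le (y : ℕ → ℝ) : ∑' k, ‖y k‖ₑ ≤ 2 * nrm Fam y := by
  rw [ENNReal.tsum_eq_iSup_sum]
  refine iSup_le fun t => ?_
  obtain ⟨s, hs, h⟩ := half (fun k => ‖y k‖) (fun _ => norm_nonneg _) t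
  refine le_trans ?_ (mul_le_mul_right (le_iSup₂_of_le s hs le_rfl) _)
  simp only [← ofReal_norm]
  rw [← ENNReal.ofReal_sum_of_nonneg fun _ _ => norm_nonneg _,
    ← ENNReal.ofReal_sum_of_nonneg fun _ _ => norm_nonneg _, ← ENNReal.ofReal_ofNat,
    ← ENNReal.ofReal_mul (by norm_num)]
  exact ENNReal.ofReal_le_ofReal h

lemma summ {y : ℕ → ℝ} (hy : y ∈ XF Fam) : Summable y := by
  obtain ⟨n, hn⟩ := (Tendsto.eventually hy (gt_mem_nhds zero_lt_one)).exists
  have h1 := (N_le _).trans_lt (ENNReal.mul_lt_top (by simp) (hn.trans ENNReal.one_lt_top))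
  have h2 : Summable ((Set.Ici n).indicator y) :=
    Summable.of_norm (tsum_enorm_ne_top_iff_summable_norm.1 h1.ne)
  refine h2.congr_cofinite ?_
  rw [Nat.cofinite_eq_atTop]
  filter_upwards [eventually_ge_atTop n] with k hk
  exact Set.indicator_of_mem hk _

theorem result : ∃ 𝓕 : Set (Finset ℕ), (∀ s ∈ 𝓕, ∀ t ⊆ s, t ∈ 𝓕) ∧ (∀ k, ∃ s ∈ 𝓕, k ∈ s) ∧
    Schur 𝓕 ∧ ¬ Star 𝓕 := by
  classical
  refine ⟨Fam, ?_, fun k => ⟨{k}, Or.inl ⟨b k, by simp⟩, by simp⟩, fun u x hu hx h => ?_,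
    fun h => ?_⟩
  · rintro s (⟨n, h⟩ | ⟨c, h⟩) t ht
    · exact Or.inl ⟨n, fun k hk => h k (ht hk)⟩
    · exact Or.inr ⟨c, fun k hk => h k (ht hk)⟩
  · have hv : ∀ n, Summable (u n - x) := fun n => (summ (hu n)).sub (summ hx)
    have h1 := schur1 (fun n => u n - x) hv fun ε hε => by
      have hb : ∀ (y : ℕ → ℝ) k, ‖ε k * y k‖ ≤ |y k| := fun y k => by
        rw [Real.norm_eq_abs, abs_mul]; exact mul_le_of_le_one_left (abs_nonneg _) (hε k)
      have hs : ∀ y : ℕ → ℝ, Summable y → Summable fun k => ε k * y k := fun y hy =>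
        Summable.of_norm_bounded hy.abs (hb y)
      let L : Submodule ℝ (ℕ → ℝ) :=
        { carrier := {y | Summable y}
          zero_mem' := summable_zero
          add_mem' := fun h1 h2 => Summable.add h1 h2
          smul_mem' := fun c _ h1 => Summable.const_smul c h1 }
      let f : L →ₗ[ℝ] ℝ :=
        { toFun := fun y => ∑' k, ε k * y.1 k
          map_add' := fun y z => by
            rw [← (hs _ y.2).tsum_add (hs _ z.2)]; simp [mul_add]
          map_smul' := fun c y => by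
            simp [← tsum_mul_left, mul_left_comm] }
      obtain ⟨g, hg⟩ := f.exists_extend
      have hg' : ∀ y, Summable y → g y = ∑' k, ε k * y k := fun y hy =>
        congrArg (fun T : L →ₗ[ℝ] ℝ => T ⟨y, hy⟩) hg
      have h2 := h g ⟨2, fun y hy => by
        rw [hg' y (summ hy)]
        refine (enorm_tsum_le_tsum_enorm).trans (le_trans (ENNReal.tsum_le_tsum fun k => ?_)
          (N_le y))
        rw [← ofReal_norm, ← ofReal_norm]
        exact ENNReal.ofReal_le_ofReal (hb y k)⟩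
      have h3 := h2.sub_const (g x)
      rw [sub_self] at h3
      exact h3.congr fun n => by rw [← map_sub, hg' _ (hv n)]
    have h2 := ENNReal.tendsto_ofReal h1
    rw [ENNReal.ofReal_zero] at h2
    refine tendsto_of_tendsto_of_tendsto_of_le_of_le tendsto_const_nhds h2 (fun _ => zero_le)
      fun n => iSup₂_le fun s _ => ?_
    rw [ENNReal.ofReal_tsum_of_nonneg (fun _ => abs_nonneg _) (hv n).abs]
    simp only [← ofReal_norm]
    exact ENNReal.sum_le_tsum s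
  · let F : ℕ → Finset ℕ := fun n => (range (2 * n + 1)).powerset.image fun s => e (n, s)
    have hF : ∀ n, ∀ k ∈ F n, b k = n := fun n k hk => by
      obtain ⟨s, -, rfl⟩ := mem_image.1 hk
      simp [b]
    obtain ⟨𝒜, h1, h2, h3⟩ := h F (fun n => Or.inl ⟨n, hF n⟩) fun n m hnm =>
      disjoint_left.2 fun k h1 h2 => hnm ((hF n k h1).symm.trans (hF m k h2))
    have key : ∀ A ∈ 𝒜, ∃ n0, ∀ n, n0 < n → ∃ i, ∀ k ∈ F n, k ∈ A → i ∈ S k := fun A hA => by
      rcases A.eq_empty_or_nonempty with rfl | ⟨a, ha⟩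
      · exact ⟨0, fun _ _ => ⟨0, by simp⟩⟩
      refine ⟨b a, fun n hn => ?_⟩
      rcases h2 A hA (insert a ((F n).filter (· ∈ A))) (by
        intro k; simp only [coe_insert, coe_filter, Set.mem_insert_iff]
        rintro (rfl | h)
        exacts [ha, h.2]) with ⟨m, hm⟩ | ⟨c, hc⟩
      · refine ⟨0, fun k hk hk' => ?_⟩
        have e1 := hm a (mem_insert_self _ _)
        have e2 := hm k (mem_insert_of_mem (mem_filter.2 ⟨hk, hk'⟩))
        have := hF n k hk
        omega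
      · exact ⟨c n, fun k hk hk' => hF n k hk ▸ hc k (mem_insert_of_mem (mem_filter.2 ⟨hk, hk'⟩))⟩
    choose! n0 hn0 using key
    obtain ⟨n, hn, hn'⟩ := h3.exists_gt (h1.toFinset.sup n0 + #h1.toFinset)
    choose! i hi using fun A (hA : A ∈ 𝒜) => hn0 A hA n (by
      have := le_sup (f := n0) (h1.mem_toFinset.2 hA)
      omega)
    set s := range (2 * n + 1) \ h1.toFinset.image i with hs
    have hk : e (n, s) ∈ F n := mem_image.2 ⟨s, mem_powerset.2 sdiff_subset, rfl⟩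
    obtain ⟨A, hA, hkA⟩ := hn hk
    have h4 := hi A hA _ hk hkA
    have h5 : n + 1 ≤ #s := by
      have a1 : #(range (2 * n + 1)) - #(h1.toFinset.image i) ≤ #s := le_card_sdiff _ _
      have := card_image_le (s := h1.toFinset) (f := i)
      rw [card_range] at a1
      omega
    have h6 : S (e (n, s)) = s := by
      simp only [S, b, Equiv.symm_apply_apply]
      exact if_pos ⟨sdiff_subset, h5⟩
    rw [h6, hs] at h4
    exact (mem_sdiff.1 h4).2 (mem_image_of_mem i (h1.mem_toFinset.2 hA))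

end Pool.Agent.Results.MP_8d662a_an.NotStar
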